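import Mathlib

/-!
A bound for the order of a zero.
-/

set_option autoImplicit false

open Complex Filter Topology Set Metric

namespace Pool.Agent.TH940

/-- Schwarz lemma for a zero of order `n` -/
theorem order_bound (F : ℂ → ℂ) (hF : Differentiable ℂ F) (c z0 : ℂ) {R M : ℝ} (hR : 0 < R)
    (hz0 : ‖z0 - c‖ ≤ R) (hM : ∀ z : ℂ, ‖z - c‖ ≤ R → ‖F z‖ ≤ M) :
    ‖F z0‖ ≤ M * (‖z0 - c‖ / R) ^ (analyticOrderNatAt F c) := by
  by_cases htop : analyticOrderAt F c = ⊤
  · have : analyticOrderNatAt F c = 0 := by
      unfold analyticOrderNatAt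
      rw [htop]
      rfl
    rw [this, pow_zero, mul_one]
    exact hM z0 hz0
  · have hcast := Nat.cast_analyticOrderNatAt htop
    set n := analyticOrderNatAt F c with hn
    obtain ⟨g, hg, hgc, hgF⟩ := (hF.analyticAt c).analyticOrderAt_eq_natCast.1 hcast.symm
    classical
    set G : ℂ → ℂ := Function.update (fun z => F z / (z - c) ^ n) c (g c) with hG
    have hGne : ∀ z, z ≠ c → G z = F z / (z - c) ^ n := by
      intro z hz
      rw [hG, Function.update_of_ne hz]
    have hGc : G c = g c := by rw [hG, Function.update_self]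
    have hGg : G =ᶠ[𝓝 c] g := by
      filter_upwards [hgF] with z hz
      by_cases h : z = c
      · rw [h, hGc]
      · rw [hGne z h, hz, smul_eq_mul]
        have : (z - c) ^ n ≠ 0 := pow_ne_zero _ (sub_ne_zero.2 h)
        field_simp
    have hGd : Differentiable ℂ G := by
      intro z
      by_cases h : z = c
      · rw [h]
        exact (hg.differentiableAt).congr_of_eventuallyEq hGg
      · have h1 : DifferentiableAt ℂ (fun z => F z / (z - c) ^ n) z := by
          refine (hF z).div (by fun_prop) (pow_ne_zero _ (sub_ne_zero.2 h))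
        refine h1.congr_of_eventuallyEq ?_
        filter_upwards [isOpen_ne.mem_nhds h] with w hw
        exact hGne w hw
    have hmul : ∀ z, F z = (z - c) ^ n * G z := by
      intro z
      by_cases h : z = c
      · have h1 := hgF.self_of_nhds
        rw [h, h1, hGc, smul_eq_mul]
      · rw [hGne z h]
        have : (z - c) ^ n ≠ 0 := pow_ne_zero _ (sub_ne_zero.2 h)
        field_simp
    have hsph : ∀ z ∈ frontier (ball c R), ‖G z‖ ≤ M / R ^ n := by
      intro z hz
      rw [frontier_ball c hR.ne', mem_sphere, dist_eq_norm] at hz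
      have h1 := hM z hz.le
      rw [hmul z, norm_mul, norm_pow, hz] at h1
      rw [le_div_iff₀ (by positivity)]
      linarith
    have hin : ‖G z0‖ ≤ M / R ^ n := by
      refine Complex.norm_le_of_forall_mem_frontier_norm_le isBounded_ball hGd.diffContOnCl hsph ?_
      rw [closure_ball c hR.ne', mem_closedBall, dist_eq_norm]
      exact hz0
    rw [hmul z0, norm_mul, norm_pow, div_pow]
    calc ‖z0 - c‖ ^ n * ‖G z0‖ ≤ ‖z0 - c‖ ^ n * (M / R ^ n) := by gcongr
      _ = _ := by ring

end Pool.Agent.TH940
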